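import Mathlib
import Pool.Agent.R646.B.Fin

/-!
# MP_790f3b_al: a class-two nilpotent group which is not the multiplicative group of a left brace

Full (negative) answer to Q1: there is a nilpotent group of class two, countable and torsion-free,
which is not isomorphic to the multiplicative group of any left brace.

The group.  Let `V` be the group of all `(x, y)` in `ℚ × ℚ` such that at each prime `p`:
`p x` and `y` are `p`-integral if `p = 1 mod 8`; `x` and `p y` are `p`-integral if `p = 3 mod 8`;
`p x` and `x - y` are `p`-integral if `p = 5 mod 8`; `x` and `y` are `p`-integral otherwise.
Let `L` be the group of all rationals `t` such that at each prime `p`, `p t` is `p`-integral if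
`p` is `1`, `3` or `5` mod `8`, and `t` is `p`-integral otherwise.  The group consists of
all `(x, y, t)` with `(x, y)` in `V`, `t` in `L` and `t - x y` even at `2`, with the product
`(x, y, t) (x', y', t') = (x + x', y + y', t + t' + x y' - y x')`.

Idea of the proof.  Let `A` be a left brace with this multiplicative group `G`; `G` acts on the
additive group of `A` with a bijective one-cocycle.  For a central element `z` the polynomials with
constant coefficient one embed multiplicatively in `G`; as commuting elements of `G` have rank at
most three, this shows that `A` is torsion-free and that `z` acts nilpotently on itself.  The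
divisibility of `z` by infinitely many primes then shows that `z` acts trivially.  The same argument
for the brace `A / L` with multiplicative group `V` shows that `A / L` is a trivial brace.  So
the brace is given by a bilinear map `f : V × V → L` with `f(v, w) - f(w, v) = [v, w]`, and
divisibility of `(1, 0)`, `(0, 1)`, `(1, 1)` by infinitely many primes gives `f(v, v) = 0` for
these three vectors, so that `f((1, 0), (0, 1))` is half of the commutator, which is not possible.
-/

universe u

namespace Pool.Agent.Results.MP_790f3b_al.NotBrace

open Pool.Agent.R646.B
open scoped commutatorElement

/-- A left brace: an abelian group `(A, +)` and a group `(A, *)` on the same set such that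
`a * (b + c) = a * b - a + a * c` for all `a`, `b`, `c`. -/
class LeftBrace (A : Type u) extends AddCommGroup A, Group A where
  brace : ∀ a b c : A, a * (b + c) = a * b - a + a * c

/-- `G` is nilpotent of class two: `G` is not abelian and `[G, G]` is contained in the centre. -/
def ClassTwo (G : Type u) [Group G] : Prop :=
  (∃ x y : G, x * y ≠ y * x) ∧ commutator G ≤ Subgroup.center G

/-- the bijective cocycle of a left brace -/
def coc {A : Type u} [LeftBrace A] (f : GG ≃* A) : Coc ℤ GG A where
  lam :=
    { toFun := fun g => AddMonoidHom.toIntLinearMap
        { toFun := fun b => f g * b - f g
          map_zero' := by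
            have h := LeftBrace.brace (f g) 0 0
            rw [add_zero] at h
            have h2 : f g * 0 - f g = 0 := by
              have : f g * (0 : A) + (f g * 0 - f g) = f g * 0 + 0 := by
                rw [add_zero]; nth_rw 3 [h]; abel
              exact add_left_cancel this
            exact h2
          map_add' := fun b c => by
            rw [LeftBrace.brace]; abel }
      map_one' := by
        apply LinearMap.ext
        intro b
        change f 1 * b - f 1 = b
        have h := LeftBrace.brace (1 : A) 0 0
        simp only [add_zero, one_mul] at h
        have h1 : (1 : A) = 0 := by
          have : (0 : A) - 1 = 0 := h.symm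
          rw [zero_sub, neg_eq_zero] at this
          exact this
        rw [map_one, one_mul, h1, sub_zero]
      map_mul' := by
        intro g h
        apply LinearMap.ext
        intro b
        change f (g * h) * b - f (g * h) = f g * (f h * b - f h) - f g
        have e : f g * (f h * b - f h + f h) = f g * (f h * b - f h) - f g + f g * f h :=
          LeftBrace.brace _ _ _
        rw [sub_add_cancel] at e
        rw [map_mul, mul_assoc, e]; abel }
  pi := f
  bij := f.bijective
  coc := by
    intro g h
    change f (g * h) = f g + (f g * f h - f g)
    rw [map_mul]; abel

theorem classTwo_GG : ClassTwo GG := by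
  constructor
  · refine ⟨e1, e2, ?_⟩
    intro h
    have := congrArg (fun g : GG => g.1.t) h
    simp [e1, e2] at this
    norm_num at this
  · rw [commutator_def, Subgroup.commutator_le]
    intro g _ h _
    rw [Subgroup.mem_center_iff]
    obtain ⟨l, hl, e⟩ := comm_LG g h
    have e2 : ⁅g, h⁆ = l := by
      rw [commutatorElement_def, e, mul_assoc h g l, ← LG_central hl g]
      rw [← mul_assoc h l g, ← LG_central hl h]
      group
    rw [e2]
    intro k
    exact (LG_central hl k).symm

theorem countable_GG : Countable GG := by
  have : Function.Injective (fun g : GG => (g.1.x, g.1.y, g.1.t)) := by
    intro a b h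
    simp only [Prod.mk.injEq] at h
    apply Subtype.ext
    ext
    · exact h.1
    · exact h.2.1
    · exact h.2.2
  exact this.countable

/-- Negative answer to Q1: some countable torsion-free nilpotent group of class two is not
isomorphic to the multiplicative group of any left brace. -/
theorem result : ∃ (G : Type) (_ : Group G), ClassTwo G ∧ Countable G ∧
    (∀ (g : G) (n : ℕ), n ≠ 0 → g ^ n = 1 → g = 1) ∧
    ∀ (A : Type u) [LeftBrace A], IsEmpty (G ≃* A) :=
  ⟨GG, inferInstance, classTwo_GG, countable_GG, GG_tf, fun _ _ => ⟨fun f => (coc f).contradiction⟩⟩

end Pool.Agent.Results.MP_790f3b_al.NotBrace
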